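import Pool.Agent.Arch.K2
import Pool.Agent.Arch.K5

/-!
# Archimedean orders on Z^n: both parts of the question answered

The question has two inseparable parts. The first conjunct answers Q1: there is `N` (namely `N = 5`)
such that `E_m` is not Borel reducible to `E_n` whenever `N ≤ n < m`. The second conjunct answers Q2
in the negative: for instance `E_m` is not Borel reducible to `E_{m+1}` for every `m ≥ 6`.
-/

namespace Pool.Agent.Results.MP_efb72e_lc.BothParts

open Pool.Agent.Arch

theorem result :
    (∀ m n : ℕ, 6 ≤ m → n < m → ¬ BorelRed (ERel m) (ERel n)) ∧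
    (∀ m n : ℕ, 6 ≤ m → m < n → n < 2 * m → (m = 6 → n ≤ 9) →
      ¬ BorelRed (ERel m) (ERel n)) :=
  ⟨fun _ _ hm hn => no_reduction_down hm hn,
    fun _ _ hm hmn hn2 hn6 => no_reduction_up hm hmn hn2 hn6⟩

end Pool.Agent.Results.MP_efb72e_lc.BothParts
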