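import Pool.Agent.Arch.K2

/-!
# Archimedean orders on Z^n: no Borel reduction of E_m to E_n for n < m

Question Q1 of the problem: there is `N` (namely `N = 5`) such that `E_m` is not Borel reducible to
`E_n` whenever `N ≤ n < m`. More precisely, for every `m ≥ 6` and every `n < m`, `E_m` is not Borel
reducible to `E_n`.
-/

namespace Pool.Agent.Results.MP_efb72e_lc.NoReductionDown

open Pool.Agent.Arch

theorem result : ∀ m n : ℕ, 6 ≤ m → n < m → ¬ BorelRed (ERel m) (ERel n) :=
  fun _ _ hm hn => no_reduction_down hm hn

end Pool.Agent.Results.MP_efb72e_lc.NoReductionDown
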