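import Pool.Agent.Arch.K5

/-!
# Archimedean orders on Z^n: E_m is not Borel reducible to E_n for m < n < 2m

Question Q2 of the problem asks whether `E_n` is Borel reducible to `E_m` for all `n < m`. It is not:
for `m ≥ 7` and `m < n < 2m`, and for `m = 6` and `n = 7, 8, 9`, the relation `E_m` is not Borel
reducible to `E_n`; in particular `E_m` is not Borel reducible to `E_{m+1}` for every `m ≥ 6`.
-/

namespace Pool.Agent.Results.MP_efb72e_lc.NoReductionUp

open Pool.Agent.Arch

theorem result : ∀ m n : ℕ, 6 ≤ m → m < n → n < 2 * m → (m = 6 → n ≤ 9) →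
    ¬ BorelRed (ERel m) (ERel n) :=
  fun _ _ hm hmn hn2 hn6 => no_reduction_up hm hmn hn2 hn6

end Pool.Agent.Results.MP_efb72e_lc.NoReductionUp
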